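import Pool.Agent.K7.H89.TP.Eig

/-!
MP_0d5435_pr, piece ANTI: anti-concentration of the largest eigenvalue.
-/

set_option autoImplicit false

open MeasureTheory ProbabilityTheory Filter Topology Matrix
open scoped ENNReal NNReal

namespace Pool.Agent.K7.H89.TP

open Pool.Agent.K7.H95.TP

noncomputable section

lemma mx_add_le {n : ℕ} (hn : 0 < n) (T : Matrix (Fin n) (Fin n) ℝ) (a : ℝ) :
    mx (T + a • (1 : Matrix (Fin n) (Fin n) ℝ)) ≤ mx T + a := by
  refine csSup_le (ne hn _) ?_
  rintro _ ⟨u, hu, rfl⟩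
  have h : qf (T + a • (1 : Matrix (Fin n) (Fin n) ℝ)) u = qf T u + a := by
    unfold qf
    rw [Matrix.add_mulVec, Matrix.smul_mulVec, Matrix.one_mulVec, dotProduct_add, dotProduct_smul,
      show u ⬝ᵥ u = 1 from hu, smul_eq_mul, mul_one]
  rw [h]
  have := qf_le_mx T hu
  linarith

lemma mx_add {n : ℕ} (hn : 0 < n) (T : Matrix (Fin n) (Fin n) ℝ) (a : ℝ) :
    mx (T + a • (1 : Matrix (Fin n) (Fin n) ℝ)) = mx T + a := by
  apply le_antisymm (mx_add_le hn T a)
  have h := mx_add_le hn (T + a • (1 : Matrix (Fin n) (Fin n) ℝ)) (-a)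
  have e : T + a • (1 : Matrix (Fin n) (Fin n) ℝ) + (-a) • (1 : Matrix (Fin n) (Fin n) ℝ) = T := by
    rw [neg_smul]
    abel
  rw [e] at h
  linarith

lemma mx_cont {n : ℕ} (hn : 0 < n) : Continuous (fun T : Matrix (Fin n) (Fin n) ℝ => mx T) := by
  rw [continuous_iff_continuousAt]
  intro T
  rw [ContinuousAt, tendsto_iff_dist_tendsto_zero]
  have h1 : ∀ T' : Matrix (Fin n) (Fin n) ℝ, dist (mx T') (mx T) ≤ ∑ i, ∑ j, |T' i j - T i j| := by
    intro T'
    rw [Real.dist_eq]
    have h2 := mx_le_add hn T T'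
    have h3 := mx_le_add hn T' T
    have h4 : ∑ i, ∑ j, |T i j - T' i j| = ∑ i, ∑ j, |T' i j - T i j| :=
      Finset.sum_congr rfl fun i _ => Finset.sum_congr rfl fun j _ => abs_sub_comm _ _
    rw [h4] at h2
    rw [abs_le]
    constructor <;> linarith
  have h2 : Tendsto (fun T' : Matrix (Fin n) (Fin n) ℝ => ∑ i, ∑ j, |T' i j - T i j|) (𝓝 T)
      (𝓝 0) := by
    have hc : Continuous (fun T' : Matrix (Fin n) (Fin n) ℝ => ∑ i, ∑ j, |T' i j - T i j|) := by
      refine continuous_finsetSum _ fun i _ => continuous_finsetSum _ fun j _ => ?_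
      exact ((continuous_id.matrix_elem i j).sub continuous_const).abs
    have h := hc.tendsto T
    simpa using h
  exact squeeze_zero (fun _ => dist_nonneg) h1 h2

lemma TG_cont (N : ℕ) : Continuous (fun g : Fin N → ℝ => TG N g) := by
  unfold TG Tz
  refine continuous_matrix fun i j => ?_
  simp only [Matrix.of_apply, xt]
  split_ifs
  · exact continuous_apply _
  · exact continuous_const

lemma mxTG_meas {N : ℕ} (hN : 0 < N) : Measurable (fun g : Fin N → ℝ => mx (TG N g)) :=
  ((mx_cont hN).comp (TG_cont N)).measurable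

lemma gauss_Ioc (a b : ℝ) : gaussianReal 0 1 (Set.Ioc a b) ≤ ENNReal.ofReal (b - a) := by
  rw [gaussianReal_apply 0 (one_ne_zero)]
  calc ∫⁻ x in Set.Ioc a b, gaussianPDF 0 1 x ≤ ∫⁻ _ in Set.Ioc a b, 1 := by
        refine lintegral_mono fun x => ?_
        unfold gaussianPDF
        rw [← ENNReal.ofReal_one]
        refine ENNReal.ofReal_le_ofReal ?_
        unfold gaussianPDFReal
        have h1 : Real.exp (-(x - 0) ^ 2 / (2 * ((1 : ℝ≥0) : ℝ))) ≤ 1 := by
          rw [Real.exp_le_one_iff]
          apply div_nonpos_of_nonpos_of_nonneg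
          · have := sq_nonneg (x - 0)
            linarith
          · positivity
        have h2 : (√(2 * Real.pi * ((1 : ℝ≥0) : ℝ)))⁻¹ ≤ 1 := by
          apply inv_le_one_of_one_le₀
          rw [Real.one_le_sqrt]
          have := Real.pi_gt_three
          norm_num
          linarith
        exact mul_le_one₀ h2 (Real.exp_pos _).le h1
    _ = ENNReal.ofReal (b - a) := by
        rw [lintegral_one, Measure.restrict_apply_univ, Real.volume_Ioc]

theorem s_ANTI : S_ANTI := by
  intro N hN s t hst
  obtain ⟨M, rfl⟩ : ∃ M, N = M + 1 := ⟨N - 1, by omega⟩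
  set A : Set (Fin (M + 1) → ℝ) := {g | s < mx (TG (M + 1) g) ∧ mx (TG (M + 1) g) ≤ t} with hA
  have hAm : MeasurableSet A :=
    (measurableSet_lt measurable_const (mxTG_meas hN)).inter
      (measurableSet_le (mxTG_meas hN) measurable_const)
  have hmp := measurePreserving_piFinSuccAbove (fun _ : Fin (M + 1) => gaussianReal 0 1) 0
  set Φ := MeasurableEquiv.piFinSuccAbove (fun _ : Fin (M + 1) => ℝ) 0 with hΦ
  have hmp' := hmp.symm Φ
  have h1 : gN (M + 1) A = ((gaussianReal 0 1).prod
      (Measure.pi fun _ : Fin M => gaussianReal 0 1)) (Φ.symm ⁻¹' A) := by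
    rw [gN, ← hmp'.measure_preimage hAm.nullMeasurableSet]
  rw [h1, Measure.prod_apply_symm (Φ.symm.measurable hAm)]
  have hsec : ∀ r : Fin M → ℝ, gaussianReal 0 1 ((fun x => (x, r)) ⁻¹' (Φ.symm ⁻¹' A)) ≤
      ENNReal.ofReal (t - s) := by
    intro r
    set h : ℝ := mx (TG (M + 1) (Φ.symm (0, r))) with hh
    have key : ∀ x : ℝ, mx (TG (M + 1) (Φ.symm (x, r))) = h + x := by
      intro x
      have e : TG (M + 1) (Φ.symm (x, r)) = TG (M + 1) (Φ.symm (0, r)) +
          x • (1 : Matrix (Fin (M + 1)) (Fin (M + 1)) ℝ) := by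
        ext i j
        simp only [TG, Tz, Matrix.of_apply, Matrix.add_apply, Matrix.smul_apply, smul_eq_mul]
        have hz : ∀ y : ℝ, ∀ k : ℕ, xt (Φ.symm (y, r)) k =
            if h0 : k = 0 then y else if h1 : k - 1 < M then r ⟨k - 1, h1⟩ else 0 := by
          intro y k
          unfold xt
          rcases Nat.eq_zero_or_pos k with hk | hk
          · subst hk
            rw [dif_pos (Nat.succ_pos M), dif_pos rfl]
            rfl
          · rw [dif_neg (show ¬ k = 0 by omega)]
            by_cases hkM : k < M + 1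
            · rw [dif_pos hkM, dif_pos (show k - 1 < M by omega)]
              have e2 : (⟨k, hkM⟩ : Fin (M + 1)) = Fin.succ ⟨k - 1, by omega⟩ := by
                ext
                simp
                omega
              rw [e2]
              rfl
            · rw [dif_neg hkM, dif_neg (show ¬ k - 1 < M by omega)]
        rw [hz, hz]
        by_cases hij : i = j
        · subst hij
          have e0 : Int.natAbs (((i : ℕ) : ℤ) - ((i : ℕ) : ℤ)) = 0 := by simp
          rw [dif_pos e0, dif_pos e0, Matrix.one_apply_eq]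
          ring
        · have e0 : Int.natAbs (((i : ℕ) : ℤ) - ((j : ℕ) : ℤ)) ≠ 0 := by
            intro h0
            apply hij
            ext
            omega
          rw [dif_neg e0, dif_neg e0, Matrix.one_apply_ne hij]
          ring
      rw [e, mx_add hN]
    have e : (fun x => (x, r)) ⁻¹' (Φ.symm ⁻¹' A) = Set.Ioc (s - h) (t - h) := by
      ext x
      simp only [Set.mem_preimage, hA, Set.mem_ofPred_eq, Set.mem_Ioc]
      rw [key x]
      constructor
      · rintro ⟨h1, h2⟩
        constructor <;> linarith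
      · rintro ⟨h1, h2⟩
        constructor <;> linarith
    rw [e]
    refine (gauss_Ioc _ _).trans (le_of_eq ?_)
    congr 1
    ring
  calc ∫⁻ y, gaussianReal 0 1 ((fun x => (x, y)) ⁻¹' (Φ.symm ⁻¹' A))
        ∂(Measure.pi fun _ : Fin M => gaussianReal 0 1)
      ≤ ∫⁻ _, ENNReal.ofReal (t - s) ∂(Measure.pi fun _ : Fin M => gaussianReal 0 1) :=
        lintegral_mono hsec
    _ = ENNReal.ofReal (t - s) := by
        rw [lintegral_const, measure_univ, mul_one]

end

end Pool.Agent.K7.H89.TP
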