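import Pool.Agent.K7.H89.TP.Det2

/-!
MP_0d5435_pr, piece DET: conclusion.
-/

set_option autoImplicit false

open MeasureTheory ProbabilityTheory Filter Topology Matrix
open scoped ENNReal NNReal

namespace Pool.Agent.K7.H89.TP

open Pool.Agent.K7.H95.TP

noncomputable section

lemma qf_smul {N : ℕ} (T : Matrix (Fin N) (Fin N) ℝ) (c : ℝ) (f : Fin N → ℝ) :
    qf T (c • f) = c ^ 2 * qf T f := by
  unfold qf
  rw [Matrix.mulVec_smul, dotProduct_smul, smul_dotProduct, smul_eq_mul, smul_eq_mul]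
  ring

/-- quadratic form on vectors which are constant on blocks -/
lemma block_form {K M : ℕ} (hK : 0 < K) (hM : 0 < M) {y : ℕ → ℝ} {W E : ℝ} (hW : 0 ≤ W)
    (hE : 0 ≤ E)
    (hWz : ∀ z, BC K M z → z ⬝ᵥ z = 1 → qf (Tz (K * M) y) z ≤ W)
    (hEb : ∑ i, (∑ j, Tz (K * M) y i j) ^ 2 ≤ E ^ 2 * (K * M : ℕ))
    {z0 : Fin (K * M) → ℝ} (hz0 : nm z0 ^ 2 ≤ 1)
    (hblock : ∀ i j : Fin (K * M), (i : ℕ) / K = (j : ℕ) / K → z0 i = z0 j) :
    qf (Tz (K * M) y) z0 ≤ W + 3 * E := by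
  set T := Tz (K * M) y with hT
  have hNpos : 0 < K * M := Nat.mul_pos hK hM
  have hN' : (0 : ℝ) < (K * M : ℕ) := by exact_mod_cast hNpos
  set c : ℝ := (∑ i, z0 i) / (K * M : ℕ) with hc
  set o : Fin (K * M) → ℝ := fun _ => 1 with ho
  set z : Fin (K * M) → ℝ := fun i => z0 i - c with hz
  have hz0e : z0 = z + c • o := by
    funext i
    simp [hz, ho]
  have hsum : ∑ i, z i = 0 := by
    simp only [hz]
    rw [Finset.sum_sub_distrib, Finset.sum_const, Finset.card_univ, Fintype.card_fin,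
      nsmul_eq_mul, hc, mul_div_cancel₀ _ hN'.ne', sub_self]
  have hBC : BC K M z := ⟨fun i j hij => by simp only [hz]; rw [hblock i j hij], hsum⟩
  have hzo : z ⬝ᵥ o = 0 := by
    simp only [dotProduct, ho, mul_one]
    exact hsum
  have hoo : o ⬝ᵥ o = (K * M : ℕ) := by
    simp only [dotProduct, ho, mul_one]
    rw [Finset.sum_const, Finset.card_univ, Fintype.card_fin, nsmul_eq_mul, mul_one]
  have hnorm : nm z0 ^ 2 = nm z ^ 2 + c ^ 2 * (K * M : ℕ) := by
    rw [nm_sq, nm_sq, hz0e, add_dotProduct, dotProduct_add, dotProduct_add, dotProduct_smul,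
      smul_dotProduct, smul_dotProduct, dotProduct_smul, hoo, hzo, dotProduct_comm o z, hzo]
    simp only [smul_eq_mul]
    ring
  have hsymm : ∀ f g : Fin (K * M) → ℝ, f ⬝ᵥ T.mulVec g = g ⬝ᵥ T.mulVec f := by
    intro f g
    have h1 : Tᵀ = T := by
      have := Tz_herm (K * M) y
      rwa [Matrix.IsHermitian, Matrix.conjTranspose_eq_transpose_of_trivial] at this
    rw [Matrix.dotProduct_mulVec, ← Matrix.mulVec_transpose, h1, dotProduct_comm]
  have hTo : nm (T.mulVec o) ^ 2 ≤ E ^ 2 * (K * M : ℕ) := by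
    rw [nm_sq]
    refine le_trans (le_of_eq ?_) hEb
    unfold dotProduct
    refine Finset.sum_congr rfl fun i _ => ?_
    have : T.mulVec o i = ∑ j, T i j := by
      simp [Matrix.mulVec, dotProduct, ho]
    rw [this, sq]
  set S : ℝ := √((K * M : ℕ) : ℝ) with hS
  have hS0 : 0 < S := Real.sqrt_pos.2 hN'
  have hSS : S ^ 2 = (K * M : ℕ) := Real.sq_sqrt hN'.le
  have hTo' : nm (T.mulVec o) ≤ E * S := by
    have h1 : nm (T.mulVec o) ^ 2 ≤ (E * S) ^ 2 := by rw [mul_pow, hSS]; exact hTo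
    exact (pow_le_pow_iff_left₀ (nm_nonneg _) (by positivity) two_ne_zero).1 h1
  have hcS : |c| * S ≤ 1 := by
    have h1 : (|c| * S) ^ 2 ≤ 1 := by
      rw [mul_pow, sq_abs, hSS]
      have := sq_nonneg (nm z)
      linarith
    have h2 : 0 ≤ |c| * S := by positivity
    nlinarith
  have hz1 : nm z ^ 2 ≤ 1 := by
    have : 0 ≤ c ^ 2 * (K * M : ℕ) := by positivity
    linarith
  have hz1' : nm z ≤ 1 := by
    have := nm_nonneg z
    nlinarith
  have hno : nm o = S := by rw [nm_eq, hoo]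
  -- the quadratic form on `z`
  have hqz : qf T z ≤ W := by
    by_cases h0 : nm z = 0
    · rw [nm_zero_of h0]
      have : qf T (0 : Fin (K * M) → ℝ) = 0 := by simp [qf]
      rw [this]
      exact hW
    · have hpos : 0 < nm z := lt_of_le_of_ne (nm_nonneg z) (Ne.symm h0)
      set z' : Fin (K * M) → ℝ := (nm z)⁻¹ • z with hz'
      have e1 : z = nm z • z' := by
        rw [hz', smul_smul, mul_inv_cancel₀ h0, one_smul]
      have hz'1 : z' ⬝ᵥ z' = 1 := by
        rw [← nm_sq, hz', nm_smul, abs_of_pos (inv_pos.2 hpos), inv_mul_cancel₀ h0, one_pow]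
      have hBC' : BC K M z' := by
        refine ⟨fun i j hij => ?_, ?_⟩
        · simp only [hz', Pi.smul_apply]
          rw [hBC.1 i j hij]
        · simp only [hz', Pi.smul_apply, smul_eq_mul]
          rw [← Finset.mul_sum, hsum, mul_zero]
      have h1 := hWz z' hBC' hz'1
      have h2 : qf T z = nm z ^ 2 * qf T z' := by
        conv_lhs => rw [e1]
        rw [qf_smul]
      rw [h2]
      calc nm z ^ 2 * qf T z' ≤ nm z ^ 2 * W := mul_le_mul_of_nonneg_left h1 (sq_nonneg _)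
        _ ≤ 1 * W := mul_le_mul_of_nonneg_right hz1 hW
        _ = W := one_mul W
  have hexp : qf T z0 = qf T z + 2 * (c * (z ⬝ᵥ T.mulVec o)) + c * (c * (o ⬝ᵥ T.mulVec o)) := by
    conv_lhs => rw [hz0e]
    unfold qf
    rw [Matrix.mulVec_add, Matrix.mulVec_smul, add_dotProduct, dotProduct_add, dotProduct_add,
      dotProduct_smul, smul_dotProduct, smul_dotProduct, dotProduct_smul, hsymm o z]
    simp only [smul_eq_mul]
    ring
  have h3 : c * (z ⬝ᵥ T.mulVec o) ≤ E := by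
    calc c * (z ⬝ᵥ T.mulVec o) ≤ |c * (z ⬝ᵥ T.mulVec o)| := le_abs_self _
      _ = |c| * |z ⬝ᵥ T.mulVec o| := abs_mul _ _
      _ ≤ |c| * (nm z * nm (T.mulVec o)) :=
          mul_le_mul_of_nonneg_left (abs_dot_le _ _) (abs_nonneg _)
      _ ≤ |c| * (1 * (E * S)) := by
          refine mul_le_mul_of_nonneg_left ?_ (abs_nonneg _)
          exact mul_le_mul hz1' hTo' (nm_nonneg _) zero_le_one
      _ = E * (|c| * S) := by ring
      _ ≤ E * 1 := mul_le_mul_of_nonneg_left hcS hE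
      _ = E := mul_one E
  have h4 : c * (c * (o ⬝ᵥ T.mulVec o)) ≤ E := by
    calc c * (c * (o ⬝ᵥ T.mulVec o)) ≤ |c * (c * (o ⬝ᵥ T.mulVec o))| := le_abs_self _
      _ = |c| * (|c| * |o ⬝ᵥ T.mulVec o|) := by rw [abs_mul, abs_mul]
      _ ≤ |c| * (|c| * (S * (E * S))) := by
          refine mul_le_mul_of_nonneg_left ?_ (abs_nonneg _)
          refine mul_le_mul_of_nonneg_left ?_ (abs_nonneg _)
          refine (abs_dot_le _ _).trans ?_
          rw [hno]
          exact mul_le_mul_of_nonneg_left hTo' hS0.le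
      _ = E * ((|c| * S) * (|c| * S)) := by ring
      _ ≤ E * (1 * 1) := by
          refine mul_le_mul_of_nonneg_left ?_ hE
          exact mul_le_mul hcS hcS (by positivity) zero_le_one
      _ = E := by ring
  rw [hexp]
  linarith

theorem s_DET : S_DET := by
  intro K m hK _ hm x g δ hg hδ0 hδ1 v hv hgap hinc W R E hW hR hE hWz hRb hEb
  have hnpos : 0 < K * m := Nat.mul_pos hK hm
  have hNpos : 0 < K * (m + 1) := Nat.mul_pos hK (Nat.succ_pos m)
  obtain ⟨u, hu1, hu2⟩ := top_exists hnpos (Tz_herm (K * m) x)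
  obtain ⟨U, hU, hUu⟩ := tf_surj u
  have hU1 : tf (K * m) U ⬝ᵥ tf (K * m) U = 1 := by rw [hUu, hu1]
  have hproj : ∀ a, a ≤ K → 1 - δ ≤ (tf (K * (m + 1)) (tr a U) ⬝ᵥ v) ^ 2 := by
    intro a ha
    have hNa : (K * (m + 1)) = a + (K * m + (K - a)) := by
      rw [Nat.mul_succ]
      omega
    have h1 : tf (K * (m + 1)) (tr a U) ⬝ᵥ tf (K * (m + 1)) (tr a U) = 1 := by
      rw [dot_tf, sum_tr hNa hU, ← hU1, dot_tf]
      refine Finset.sum_congr rfl fun k _ => ?_
      rw [tr_add]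
    have h2 := hgap (tf (K * (m + 1)) (tr a U)) h1
    rw [qf_tr hNa hU, hUu, hu2] at h2
    have h3 : g * (1 - (tf (K * (m + 1)) (tr a U) ⬝ᵥ v) ^ 2) ≤ g * δ := by linarith
    have h4 := le_of_mul_le_mul_left h3 hg
    linarith
  obtain ⟨s, e, hs, he, hev, hchain⟩ := sign_chain hK
    (show (K * (m + 1)) = K + K * m by rw [Nat.mul_succ, Nat.add_comm]) hU hU1 hδ0 hδ1 hv hproj
  have hbd := block_dist (M := m + 1) hK hs hchain
  set w : ℕ → ℝ := fun k => s ^ k * U k with hw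
  set T := Tz (K * (m + 1)) x with hT
  set Ts := Tz (K * (m + 1)) (fun k => s ^ k * x k) with hTs
  set z0 : Fin (K * (m + 1)) → ℝ := tf (K * (m + 1)) (avg K w) with hz0
  -- norms
  have hwn : nm (tf (K * (m + 1)) w) ^ 2 = 1 := by
    have e1 : tf (K * (m + 1)) w = sg s (tf (K * (m + 1)) U) := rfl
    have h0 : tf (K * (m + 1)) U ⬝ᵥ tf (K * (m + 1)) U = 1 := by
      have e2 : tf (K * (m + 1)) U = tf (K * (m + 1)) (tr 0 U) := by
        funext i
        exact (tr_zero U i).symm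
      rw [e2, dot_tf, sum_tr (n := K * m) (b := K) (by rw [Nat.mul_succ]; omega) hU, ← hU1,
        dot_tf]
      refine Finset.sum_congr rfl fun k _ => ?_
      rw [tr_add]
    rw [e1, nm_sq, sg_dot hs, h0]
  have hz0n : nm z0 ^ 2 ≤ 1 := by
    rw [← hwn, nm_sq, nm_sq, hz0, dot_tf, dot_tf]
    have h := avg_sq_le hK w (m + 1)
    have e1 : ∀ f : ℕ → ℝ, ∑ k ∈ Finset.range (K * (m + 1)), f k * f k = ∑ k ∈ Finset.range (K * (m + 1)), f k ^ 2 :=
      fun f => Finset.sum_congr rfl fun k _ => (sq (f k)).symm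
    rw [e1, e1]
    exact h
  have hz0n' : nm z0 ≤ 1 := by
    have := nm_nonneg z0
    nlinarith
  set a : Fin (K * (m + 1)) → ℝ := sg s v with ha
  set b : Fin (K * (m + 1)) → ℝ := e • z0 with hb
  have hee : e * e = 1 := by rcases he with h | h <;> rw [h] <;> norm_num
  have heabs : |e| = 1 := by rcases he with h | h <;> rw [h] <;> norm_num
  set q : ℝ := √δ with hq
  have hq0 : 0 ≤ q := Real.sqrt_nonneg _
  have hqq : q ^ 2 = δ := Real.sq_sqrt hδ0
  have hd1 : nm (tf (K * (m + 1)) U - e • v) ≤ 3 / 2 * q := by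
    have h1 : nm (tf (K * (m + 1)) U - e • v) ^ 2 ≤ (3 / 2 * q) ^ 2 := by
      rw [mul_pow, hqq]
      linarith
    exact (pow_le_pow_iff_left₀ (nm_nonneg _) (by positivity) two_ne_zero).1 h1
  have hd2 : nm (tf (K * (m + 1)) w - z0) ≤ 4 * q := by
    have h1 : nm (tf (K * (m + 1)) w - z0) ^ 2 ≤ (4 * q) ^ 2 := by
      rw [mul_pow, hqq]
      linarith
    exact (pow_le_pow_iff_left₀ (nm_nonneg _) (by positivity) two_ne_zero).1 h1
  have hab : nm (a - b) ≤ 11 / 2 * q := by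
    have e1 : a - b = (-e) • sg s (tf (K * (m + 1)) U - e • v) + e • (tf (K * (m + 1)) w - z0) := by
      have e2 : sg s (tf (K * (m + 1)) U - e • v) = tf (K * (m + 1)) w - e • a := by
        rw [sg_sub, sg_smul]
        rfl
      rw [e2, smul_sub, smul_sub, smul_smul, neg_mul, hee, neg_smul, neg_smul, one_smul]
      abel
    rw [e1]
    refine (nm_add_le _ _).trans ?_
    rw [nm_smul, nm_smul, sg_nm hs, abs_neg, heabs, one_mul, one_mul]
    linarith
  have hna : nm a = 1 := by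
    rw [ha, sg_nm hs, nm_eq, hv, Real.sqrt_one]
  have hnb : nm b ≤ 1 := by
    rw [hb, nm_smul, heabs, one_mul]
    exact hz0n'
  -- the bound for the signed matrix
  have hRs : ∀ f h : Fin (K * (m + 1)) → ℝ, |f ⬝ᵥ Ts.mulVec h| ≤ R * (nm f * nm h) := by
    intro f h
    have e1 : f ⬝ᵥ Ts.mulVec h = sg s f ⬝ᵥ T.mulVec (sg s h) := by
      conv_lhs => rw [← sg_sg hs f, ← sg_sg hs h]
      exact sg_form hs x (sg s f) (sg s h)
    rw [e1]
    have h1 := hRb (sg s f) (sg s h)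
    rw [← nm_eq, ← nm_eq, sg_nm hs, sg_nm hs] at h1
    exact h1
  -- top eigenvector
  have hqv : qf T v = mx T := by
    obtain ⟨u', hu'1, hu'2⟩ := top_exists hNpos (Tz_herm (K * (m + 1)) x)
    have h1 := hgap u' hu'1
    rw [hu'2] at h1
    have h2 : g * (1 - (u' ⬝ᵥ v) ^ 2) ≤ g * 0 := by
      rw [mul_zero]
      linarith
    have h3 := le_of_mul_le_mul_left h2 hg
    have h4 := near hu'1 hv le_rfl zero_le_one (by linarith)
    have h5 : nm (u' - sn (u' ⬝ᵥ v) • v) = 0 := by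
      have := nm_nonneg (u' - sn (u' ⬝ᵥ v) • v)
      nlinarith
    have h6 := nm_zero_of h5
    have h7 : u' = sn (u' ⬝ᵥ v) • v := sub_eq_zero.1 h6
    have h8 : qf T u' = mx T := hu'2
    rw [h7, qf_smul] at h8
    have h9 : sn (u' ⬝ᵥ v) ^ 2 = 1 := by
      rcases sn_cases (u' ⬝ᵥ v) with h | h <;> rw [h] <;> norm_num
    rw [h9, one_mul] at h8
    exact h8
  have hqa : qf Ts a = mx T := by
    rw [← hqv]
    exact sg_form hs x v v
  have hqb : qf Ts b = qf Ts z0 := by
    rw [hb, qf_smul, sq, hee, one_mul]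
  have hdiff : qf Ts a - qf Ts b ≤ 11 * q * R := by
    have e1 : qf Ts a - qf Ts b = a ⬝ᵥ Ts.mulVec (a - b) + (a - b) ⬝ᵥ Ts.mulVec b := by
      unfold qf
      rw [Matrix.mulVec_sub, dotProduct_sub, sub_dotProduct]
      ring
    rw [e1]
    have h1 := (le_abs_self _).trans (hRs a (a - b))
    have h2 := (le_abs_self _).trans (hRs (a - b) b)
    have h3 := nm_nonneg (a - b)
    have h4 := nm_nonneg b
    rw [hna, one_mul] at h1
    have h5 : R * (nm (a - b) * nm b) ≤ R * (nm (a - b) * 1) :=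
      mul_le_mul_of_nonneg_left (mul_le_mul_of_nonneg_left hnb h3) hR
    have h6 : R * nm (a - b) ≤ R * (11 / 2 * q) := mul_le_mul_of_nonneg_left hab hR
    linarith
  have hblock := block_form hK (Nat.succ_pos m) (y := fun k => s ^ k * x k) hW hE
    (fun z hz hz1 => hWz s hs z hz hz1) (hEb s hs) (z0 := z0) hz0n (by
      intro i j hij
      simp only [hz0, tf, avg]
      rw [hij])
  have h30 : 11 * q * R ≤ 30 * q * R := by
    have : 0 ≤ q * R := mul_nonneg hq0 hR
    linarith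
  have hfin : qf Ts z0 ≤ W + 3 * E := hblock
  linarith

end

end Pool.Agent.K7.H89.TP
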