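import Pool.Agent.K7.H89.TP.Eig

/-!
MP_0d5435_pr, piece DET, part 1: norms, translates, block averages.
-/

set_option autoImplicit false

open MeasureTheory ProbabilityTheory Filter Topology Matrix
open scoped ENNReal NNReal

namespace Pool.Agent.K7.H89.TP

open Pool.Agent.K7.H95.TP

noncomputable section

variable {N : ℕ}

/-- Euclidean norm of a plain vector -/
def nm (f : Fin N → ℝ) : ℝ := ‖(WithLp.toLp 2 f : EuclideanSpace ℝ (Fin N))‖

lemma nm_nonneg (f : Fin N → ℝ) : 0 ≤ nm f := norm_nonneg _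

lemma nm_sq (f : Fin N → ℝ) : nm f ^ 2 = f ⬝ᵥ f := by
  unfold nm
  rw [← real_inner_self_eq_norm_sq, inner_eq]

lemma nm_eq (f : Fin N → ℝ) : nm f = √(f ⬝ᵥ f) := by
  rw [← nm_sq, Real.sqrt_sq (nm_nonneg f)]

lemma nm_add_le (f g : Fin N → ℝ) : nm (f + g) ≤ nm f + nm g := by
  unfold nm
  rw [WithLp.toLp_add]
  exact norm_add_le _ _

lemma nm_smul (c : ℝ) (f : Fin N → ℝ) : nm (c • f) = |c| * nm f := by
  unfold nm
  rw [WithLp.toLp_smul, norm_smul, Real.norm_eq_abs]

lemma nm_sub_comm (f g : Fin N → ℝ) : nm (f - g) = nm (g - f) := by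
  have : f - g = (-1 : ℝ) • (g - f) := by
    rw [neg_one_smul, neg_sub]
  rw [this, nm_smul, abs_neg, abs_one, one_mul]

lemma abs_dot_le (f g : Fin N → ℝ) : |f ⬝ᵥ g| ≤ nm f * nm g := by
  have h := abs_real_inner_le_norm (WithLp.toLp 2 f : EuclideanSpace ℝ (Fin N)) (WithLp.toLp 2 g)
  rwa [inner_eq] at h

lemma nm_zero_of {f : Fin N → ℝ} (h : nm f = 0) : f = 0 := by
  unfold nm at h
  rw [norm_eq_zero] at h
  have := congrArg WithLp.ofLp h
  simpa using this

/-- restriction of a sequence to the first `N` places -/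
def tf (N : ℕ) (f : ℕ → ℝ) : Fin N → ℝ := fun i => f i

lemma dot_tf (f g : ℕ → ℝ) : tf N f ⬝ᵥ tf N g = ∑ k ∈ Finset.range N, f k * g k := by
  unfold tf dotProduct
  exact Fin.sum_univ_eq_sum_range (fun k => f k * g k) N

/-- translate by `a`, padded by zeros -/
def tr (a : ℕ) (f : ℕ → ℝ) (k : ℕ) : ℝ := if a ≤ k then f (k - a) else 0

lemma tr_add (a : ℕ) (f : ℕ → ℝ) (k : ℕ) : tr a f (a + k) = f k := by
  unfold tr
  rw [if_pos (Nat.le_add_right _ _), Nat.add_sub_cancel_left]

lemma tr_zero (f : ℕ → ℝ) (k : ℕ) : tr 0 f k = f k := by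
  unfold tr
  rw [if_pos (Nat.zero_le _), Nat.sub_zero]

lemma tr_succ (a : ℕ) (f : ℕ → ℝ) (k : ℕ) : tr (a + 1) f (a + k) = tr 1 f k := by
  unfold tr
  by_cases h : 1 ≤ k
  · rw [if_pos (by omega), if_pos h]
    congr 1
    omega
  · rw [if_neg (by omega), if_neg h]

/-- sums against a translate -/
lemma sum_tr {n a b : ℕ} (hN : N = a + (n + b)) {U : ℕ → ℝ} (hU : ∀ k, n ≤ k → U k = 0)
    (F : ℕ → ℝ) :
    ∑ k ∈ Finset.range N, F k * tr a U k = ∑ k ∈ Finset.range n, F (a + k) * U k := by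
  rw [hN, Finset.sum_range_add, Finset.sum_range_add]
  have h1 : ∑ k ∈ Finset.range a, F k * tr a U k = 0 := by
    refine Finset.sum_eq_zero fun k hk => ?_
    unfold tr
    rw [if_neg (by have := Finset.mem_range.1 hk; omega), mul_zero]
  have h2 : ∑ k ∈ Finset.range b, F (a + (n + k)) * tr a U (a + (n + k)) = 0 := by
    refine Finset.sum_eq_zero fun k _ => ?_
    rw [tr_add, hU _ (by omega), mul_zero]
  rw [h1, h2, zero_add, add_zero]
  refine Finset.sum_congr rfl fun k _ => ?_
  rw [tr_add]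

lemma qf_tf (x f : ℕ → ℝ) : qf (Tz N x) (tf N f) =
    ∑ i ∈ Finset.range N, (∑ j ∈ Finset.range N, x (Int.natAbs ((i : ℤ) - (j : ℤ))) * f j) * f i := by
  unfold qf
  have h : (Tz N x).mulVec (tf N f) = tf N fun i =>
      ∑ j ∈ Finset.range N, x (Int.natAbs ((i : ℤ) - (j : ℤ))) * f j := by
    funext i
    unfold tf Matrix.mulVec dotProduct
    exact Fin.sum_univ_eq_sum_range (fun j => x (Int.natAbs ((i : ℤ) - (j : ℤ))) * f j) N
  rw [h, dot_tf]
  refine Finset.sum_congr rfl fun i _ => ?_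
  ring

/-- the quadratic form is invariant under translations -/
lemma qf_tr {n a b : ℕ} (hN : N = a + (n + b)) {U : ℕ → ℝ} (hU : ∀ k, n ≤ k → U k = 0)
    (x : ℕ → ℝ) : qf (Tz N x) (tf N (tr a U)) = qf (Tz n x) (tf n U) := by
  rw [qf_tf, qf_tf]
  rw [sum_tr hN hU]
  refine Finset.sum_congr rfl fun i _ => ?_
  congr 1
  rw [sum_tr hN hU]
  refine Finset.sum_congr rfl fun j _ => ?_
  congr 2
  congr 1
  push_cast
  ring

/-- block averages -/
def avg (K : ℕ) (f : ℕ → ℝ) (k : ℕ) : ℝ := (∑ j ∈ Finset.range K, f (K * (k / K) + j)) / K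

lemma sum_blocks (K : ℕ) (f : ℕ → ℝ) (M : ℕ) :
    ∑ k ∈ Finset.range (K * M), f k =
      ∑ t ∈ Finset.range M, ∑ j ∈ Finset.range K, f (K * t + j) := by
  induction M with
  | zero => simp
  | succ M ih => rw [Nat.mul_succ, Finset.sum_range_add, Finset.sum_range_succ, ih]

lemma avg_block {K : ℕ} (hK : 0 < K) (f : ℕ → ℝ) (t i : ℕ) (hi : i < K) :
    avg K f (K * t + i) = (∑ j ∈ Finset.range K, f (K * t + j)) / K := by
  unfold avg
  have : (K * t + i) / K = t := by
    rw [Nat.mul_add_div hK, Nat.div_eq_of_lt hi, add_zero]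
  rw [this]

lemma avg_sq_le {K : ℕ} (hK : 0 < K) (f : ℕ → ℝ) (M : ℕ) :
    ∑ k ∈ Finset.range (K * M), avg K f k ^ 2 ≤ ∑ k ∈ Finset.range (K * M), f k ^ 2 := by
  have hK' : (0 : ℝ) < K := by exact_mod_cast hK
  rw [sum_blocks K (fun k => avg K f k ^ 2), sum_blocks K (fun k => f k ^ 2)]
  refine Finset.sum_le_sum fun t _ => ?_
  have h1 : ∑ j ∈ Finset.range K, avg K f (K * t + j) ^ 2 =
      K * ((∑ j ∈ Finset.range K, f (K * t + j)) / K) ^ 2 := by
    rw [Finset.sum_congr rfl (fun j hj => by rw [avg_block hK f t j (Finset.mem_range.1 hj)]),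
      Finset.sum_const, Finset.card_range, nsmul_eq_mul]
  rw [h1]
  have h2 := sq_sum_le_card_mul_sum_sq (s := Finset.range K) (f := fun j => f (K * t + j))
  rw [Finset.card_range] at h2
  rw [div_pow, mul_div_assoc', div_le_iff₀ (by positivity)]
  have h3 := mul_le_mul_of_nonneg_left h2 hK'.le
  calc (K : ℝ) * (∑ j ∈ Finset.range K, f (K * t + j)) ^ 2
      ≤ K * (K * ∑ i ∈ Finset.range K, f (K * t + i) ^ 2) := h3
    _ = (∑ j ∈ Finset.range K, f (K * t + j) ^ 2) * (K : ℝ) ^ 2 := by ring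

lemma avg_sub_sq_le {K : ℕ} (hK : 0 < K) (f : ℕ → ℝ) (M : ℕ) :
    K * ∑ k ∈ Finset.range (K * M), (f k - avg K f k) ^ 2 ≤
      ∑ t ∈ Finset.range M, ∑ i ∈ Finset.range K, ∑ j ∈ Finset.range K,
        (f (K * t + i) - f (K * t + j)) ^ 2 := by
  have hK' : (0 : ℝ) < K := by exact_mod_cast hK
  rw [sum_blocks K (fun k => (f k - avg K f k) ^ 2), Finset.mul_sum]
  refine Finset.sum_le_sum fun t _ => ?_
  rw [Finset.mul_sum]
  refine Finset.sum_le_sum fun i hi => ?_
  rw [avg_block hK f t i (Finset.mem_range.1 hi)]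
  have h1 : f (K * t + i) - (∑ j ∈ Finset.range K, f (K * t + j)) / K =
      (∑ j ∈ Finset.range K, (f (K * t + i) - f (K * t + j))) / K := by
    rw [Finset.sum_sub_distrib, Finset.sum_const, Finset.card_range, nsmul_eq_mul, sub_div,
      mul_div_cancel_left₀ _ hK'.ne']
  rw [h1]
  have h2 := sq_sum_le_card_mul_sum_sq (s := Finset.range K)
    (f := fun j => f (K * t + i) - f (K * t + j))
  rw [Finset.card_range] at h2
  rw [div_pow, mul_div_assoc', div_le_iff₀ (by positivity)]
  have h3 := mul_le_mul_of_nonneg_left h2 hK'.le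
  calc (K : ℝ) * (∑ j ∈ Finset.range K, (f (K * t + i) - f (K * t + j))) ^ 2
      ≤ K * (K * ∑ j ∈ Finset.range K, (f (K * t + i) - f (K * t + j)) ^ 2) := h3
    _ = (∑ j ∈ Finset.range K, (f (K * t + i) - f (K * t + j)) ^ 2) * (K : ℝ) ^ 2 := by ring

/-- pairs in a block are pairs at distance less than `K` -/
lemma pairs_le {K M : ℕ} (D : ℕ → ℕ → ℝ) (hD : ∀ a k, 0 ≤ D a k) (f : ℕ → ℝ)
    (hfD : ∀ a k, a < K → k + a < K * M → (f (k + a) - f k) ^ 2 ≤ D a k) :
    ∑ t ∈ Finset.range M, ∑ i ∈ Finset.range K, ∑ j ∈ Finset.range K,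
        (f (K * t + i) - f (K * t + j)) ^ 2 ≤
      2 * ∑ a ∈ Finset.range K, ∑ k ∈ Finset.range (K * M), D a k := by
  have key : ∀ t ∈ Finset.range M, ∑ i ∈ Finset.range K, ∑ j ∈ Finset.range K,
        (f (K * t + i) - f (K * t + j)) ^ 2 ≤
      2 * ∑ j ∈ Finset.range K, ∑ a ∈ Finset.range K, D a (K * t + j) := by
    intro t ht
    have ht' := Finset.mem_range.1 ht
    have hb : ∀ i, i < K → K * t + i < K * M := by
      intro i hi
      have : K * (t + 1) ≤ K * M := Nat.mul_le_mul_left K ht'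
      rw [Nat.mul_succ] at this
      omega
    have h1 : ∀ i ∈ Finset.range K, ∀ j ∈ Finset.range K,
        (f (K * t + i) - f (K * t + j)) ^ 2 ≤
          (if j ≤ i then D (i - j) (K * t + j) else 0) +
          (if i ≤ j then D (j - i) (K * t + i) else 0) := by
      intro i hi j hj
      have hi' := Finset.mem_range.1 hi
      have hj' := Finset.mem_range.1 hj
      rcases le_total j i with h | h
      · rw [if_pos h]
        have h3 := hfD (i - j) (K * t + j) (by omega) (by have := hb i hi'; omega)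
        rw [show K * t + j + (i - j) = K * t + i by omega] at h3
        have h4 : 0 ≤ (if i ≤ j then D (j - i) (K * t + i) else 0) := by
          split_ifs
          · exact hD _ _
          · exact le_rfl
        linarith
      · rw [if_pos h]
        have h3 := hfD (j - i) (K * t + i) (by omega) (by have := hb j hj'; omega)
        rw [show K * t + i + (j - i) = K * t + j by omega] at h3
        have h4 : 0 ≤ (if j ≤ i then D (i - j) (K * t + j) else 0) := by
          split_ifs
          · exact hD _ _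
          · exact le_rfl
        have h5 : (f (K * t + i) - f (K * t + j)) ^ 2 = (f (K * t + j) - f (K * t + i)) ^ 2 := by
          ring
        linarith
    have h2 : ∀ j ∈ Finset.range K, ∑ i ∈ Finset.range K,
        (if j ≤ i then D (i - j) (K * t + j) else 0) ≤
          ∑ a ∈ Finset.range K, D a (K * t + j) := by
      intro j hj
      have hj' := Finset.mem_range.1 hj
      have e : ∑ i ∈ Finset.range K, (if j ≤ i then D (i - j) (K * t + j) else 0) =
          ∑ a ∈ Finset.range (K - j), D a (K * t + j) := by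
        conv_lhs => rw [show K = j + (K - j) by omega]
        rw [Finset.sum_range_add]
        rw [Finset.sum_eq_zero (fun i hi => by
          rw [if_neg (by have := Finset.mem_range.1 hi; omega)]), zero_add]
        refine Finset.sum_congr rfl fun a _ => ?_
        rw [if_pos (by omega)]
        congr 1
        · omega
        · congr 2
          omega
      rw [e]
      exact Finset.sum_le_sum_of_subset_of_nonneg
        (Finset.range_subset_range.2 (Nat.sub_le _ _)) (fun a _ _ => hD _ _)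
    calc ∑ i ∈ Finset.range K, ∑ j ∈ Finset.range K, (f (K * t + i) - f (K * t + j)) ^ 2
        ≤ ∑ i ∈ Finset.range K, ∑ j ∈ Finset.range K,
          ((if j ≤ i then D (i - j) (K * t + j) else 0) +
          (if i ≤ j then D (j - i) (K * t + i) else 0)) :=
          Finset.sum_le_sum fun i hi => Finset.sum_le_sum fun j hj => h1 i hi j hj
      _ = (∑ j ∈ Finset.range K, ∑ i ∈ Finset.range K,
            (if j ≤ i then D (i - j) (K * t + j) else 0)) +
          ∑ i ∈ Finset.range K, ∑ j ∈ Finset.range K,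
            (if i ≤ j then D (j - i) (K * t + i) else 0) := by
          simp only [Finset.sum_add_distrib]
          rw [Finset.sum_comm]
      _ ≤ (∑ j ∈ Finset.range K, ∑ a ∈ Finset.range K, D a (K * t + j)) +
          ∑ j ∈ Finset.range K, ∑ a ∈ Finset.range K, D a (K * t + j) :=
          add_le_add (Finset.sum_le_sum h2) (Finset.sum_le_sum h2)
      _ = 2 * ∑ j ∈ Finset.range K, ∑ a ∈ Finset.range K, D a (K * t + j) := by ring
  refine (Finset.sum_le_sum key).trans (le_of_eq ?_)
  rw [← Finset.mul_sum]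
  congr 1
  rw [Finset.sum_congr rfl (fun a _ => sum_blocks K (D a) M)]
  calc ∑ t ∈ Finset.range M, ∑ j ∈ Finset.range K, ∑ a ∈ Finset.range K, D a (K * t + j)
      = ∑ t ∈ Finset.range M, ∑ a ∈ Finset.range K, ∑ j ∈ Finset.range K, D a (K * t + j) :=
        Finset.sum_congr rfl fun t _ => Finset.sum_comm
    _ = _ := Finset.sum_comm

end

end Pool.Agent.K7.H89.TP
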