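import Pool.Agent.K7.H89.TP.Det1

/-!
MP_0d5435_pr, piece DET, part 2: the top eigenvector is almost constant on blocks.
-/

set_option autoImplicit false

open MeasureTheory ProbabilityTheory Filter Topology Matrix
open scoped ENNReal NNReal

namespace Pool.Agent.K7.H89.TP

open Pool.Agent.K7.H95.TP

noncomputable section

lemma top_exists {n : ℕ} (hn : 0 < n) {T : Matrix (Fin n) (Fin n) ℝ} (hT : T.IsHermitian) :
    ∃ u : Fin n → ℝ, u ⬝ᵥ u = 1 ∧ qf T u = mx T := by
  obtain ⟨_, _, ⟨i, hi⟩, _⟩ := s_EIG n T hT hn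
  exact ⟨bv hT i, by rw [bv_orth, if_pos rfl], by rw [ev_eq hT i, hi]⟩

lemma tf_surj {n : ℕ} (u : Fin n → ℝ) : ∃ U : ℕ → ℝ, (∀ k, n ≤ k → U k = 0) ∧ tf n U = u := by
  refine ⟨fun k => if h : k < n then u ⟨k, h⟩ else 0, fun k hk => dif_neg (by omega), ?_⟩
  funext i
  unfold tf
  exact dif_pos i.2

lemma sgn_pow {s : ℝ} (hs : s = 1 ∨ s = -1) (k : ℕ) : s ^ k * s ^ k = 1 := by
  rw [← mul_pow]
  rcases hs with h | h <;> simp [h]

lemma sgn_pow3 {s : ℝ} (hs : s = 1 ∨ s = -1) (i j : ℕ) :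
    s ^ i * (s ^ (Int.natAbs ((i : ℤ) - (j : ℤ))) * s ^ j) = 1 := by
  rcases le_total i j with h | h
  · have : Int.natAbs ((i : ℤ) - (j : ℤ)) = j - i := by omega
    rw [this, ← mul_assoc, ← pow_add, Nat.add_sub_cancel' h]
    exact sgn_pow hs j
  · have : Int.natAbs ((i : ℤ) - (j : ℤ)) = i - j := by omega
    rw [this, ← pow_add, Nat.sub_add_cancel h]
    exact sgn_pow hs i

variable {N : ℕ}

/-- multiplication by the signs `s^i` -/
def sg (s : ℝ) (f : Fin N → ℝ) : Fin N → ℝ := fun i => s ^ (i : ℕ) * f i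

lemma sg_dot {s : ℝ} (hs : s = 1 ∨ s = -1) (f g : Fin N → ℝ) : sg s f ⬝ᵥ sg s g = f ⬝ᵥ g := by
  unfold dotProduct sg
  refine Finset.sum_congr rfl fun i _ => ?_
  calc s ^ (i : ℕ) * f i * (s ^ (i : ℕ) * g i) = (s ^ (i : ℕ) * s ^ (i : ℕ)) * (f i * g i) := by ring
    _ = f i * g i := by rw [sgn_pow hs, one_mul]

lemma sg_sg {s : ℝ} (hs : s = 1 ∨ s = -1) (f : Fin N → ℝ) : sg s (sg s f) = f := by
  funext i
  unfold sg
  rw [← mul_assoc, sgn_pow hs, one_mul]

lemma sg_nm {s : ℝ} (hs : s = 1 ∨ s = -1) (f : Fin N → ℝ) : nm (sg s f) = nm f := by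
  rw [nm_eq, nm_eq, sg_dot hs]

lemma sg_sub (s : ℝ) (f g : Fin N → ℝ) : sg s (f - g) = sg s f - sg s g := by
  funext i
  simp only [sg, Pi.sub_apply]
  ring

lemma sg_smul (s c : ℝ) (f : Fin N → ℝ) : sg s (c • f) = c • sg s f := by
  funext i
  simp only [sg, Pi.smul_apply, smul_eq_mul]
  ring

lemma sg_form {s : ℝ} (hs : s = 1 ∨ s = -1) (x : ℕ → ℝ) (f g : Fin N → ℝ) :
    sg s f ⬝ᵥ (Tz N fun k => s ^ k * x k).mulVec (sg s g) = f ⬝ᵥ (Tz N x).mulVec g := by
  unfold dotProduct Matrix.mulVec dotProduct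
  refine Finset.sum_congr rfl fun i _ => ?_
  rw [Finset.mul_sum, Finset.mul_sum]
  refine Finset.sum_congr rfl fun j _ => ?_
  unfold sg Tz
  simp only [Matrix.of_apply]
  have h := sgn_pow3 hs i j
  calc s ^ (i : ℕ) * f i * (s ^ (Int.natAbs ((i : ℤ) - (j : ℤ))) *
        x (Int.natAbs ((i : ℤ) - (j : ℤ))) * (s ^ (j : ℕ) * g j))
      = (s ^ (i : ℕ) * (s ^ (Int.natAbs ((i : ℤ) - (j : ℤ))) * s ^ (j : ℕ))) *
        (f i * (x (Int.natAbs ((i : ℤ) - (j : ℤ))) * g j)) := by ring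
    _ = f i * (x (Int.natAbs ((i : ℤ) - (j : ℤ))) * g j) := by rw [h, one_mul]

lemma dot_sub_sq (f g : Fin N → ℝ) (c : ℝ) (hc : c = 1 ∨ c = -1) (hf : f ⬝ᵥ f = 1)
    (hg : g ⬝ᵥ g = 1) : nm (f - c • g) ^ 2 = 2 - 2 * (c * (f ⬝ᵥ g)) := by
  rw [nm_sq, sub_dotProduct, dotProduct_sub, dotProduct_sub, dotProduct_smul, smul_dotProduct,
    smul_dotProduct, dotProduct_smul, hf, hg, dotProduct_comm g f]
  simp only [smul_eq_mul]
  rcases hc with h | h <;> rw [h] <;> ring

/-- the sign of a real number, never zero -/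
def sn (t : ℝ) : ℝ := if 0 ≤ t then 1 else -1

lemma sn_cases (t : ℝ) : sn t = 1 ∨ sn t = -1 := by
  unfold sn
  split_ifs <;> simp

lemma sn_mul (t : ℝ) : sn t * t = |t| := by
  unfold sn
  split_ifs with h
  · rw [abs_of_nonneg h, one_mul]
  · rw [abs_of_neg (not_le.1 h)]
    ring

lemma near {f v : Fin N → ℝ} (hf : f ⬝ᵥ f = 1) (hv : v ⬝ᵥ v = 1) {δ : ℝ} (h0 : 0 ≤ δ) (h1 : δ ≤ 1)
    (h : 1 - δ ≤ (f ⬝ᵥ v) ^ 2) : nm (f - sn (f ⬝ᵥ v) • v) ^ 2 ≤ 2 * δ := by
  rw [dot_sub_sq f v _ (sn_cases _) hf hv, sn_mul]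
  have h2 : 1 - δ ≤ |f ⬝ᵥ v| := by
    by_contra h3
    push Not at h3
    have h4 : |f ⬝ᵥ v| ^ 2 < (1 - δ) ^ 2 := by
      have := abs_nonneg (f ⬝ᵥ v)
      nlinarith
    rw [sq_abs] at h4
    nlinarith
  linarith

/-- signs with consecutive ratio `s` -/
lemma sign_chain {K : ℕ} (hK : 0 < K) {n : ℕ} (hN : N = K + n) {U : ℕ → ℝ}
    (hU : ∀ k, n ≤ k → U k = 0)
    (hU1 : tf n U ⬝ᵥ tf n U = 1) {v : Fin N → ℝ} {δ : ℝ} (h0 : 0 ≤ δ) (h1 : δ ≤ 1 / 1000)
    (hv : v ⬝ᵥ v = 1) (h : ∀ a, a ≤ K → 1 - δ ≤ (tf N (tr a U) ⬝ᵥ v) ^ 2) :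
    ∃ s e : ℝ, (s = 1 ∨ s = -1) ∧ (e = 1 ∨ e = -1) ∧ nm (tf N U - e • v) ^ 2 ≤ 2 * δ ∧
      ∀ a, a ≤ K → nm (tf N (tr a U) - s ^ a • tf N U) ^ 2 ≤ 8 * δ := by
  set e : ℕ → ℝ := fun a => sn (tf N (tr a U) ⬝ᵥ v) with he
  have hec : ∀ a, e a = 1 ∨ e a = -1 := fun a => sn_cases _
  have hee : ∀ a, e a * e a = 1 := by
    intro a
    rcases hec a with h | h <;> rw [h] <;> norm_num
  have hn1 : ∀ a, a ≤ K → tf N (tr a U) ⬝ᵥ tf N (tr a U) = 1 := by
    intro a ha
    rw [dot_tf, sum_tr (n := n) (b := K - a) (by omega) hU, ← hU1, dot_tf]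
    refine Finset.sum_congr rfl fun k _ => ?_
    rw [tr_add]
  have hcons : ∀ a, a + 1 ≤ K → tf N (tr (a + 1) U) ⬝ᵥ tf N (tr a U) =
      ∑ k ∈ Finset.range n, tr 1 U k * U k := by
    intro a ha
    rw [dot_tf, sum_tr (n := n) (b := K - a) (by omega) hU]
    refine Finset.sum_congr rfl fun k _ => ?_
    rw [tr_succ]
  have hA : ∀ a, a ≤ K → nm (tf N (tr a U) - e a • v) ^ 2 ≤ 2 * δ := fun a ha =>
    near (hn1 a ha) hv h0 (by linarith) (h a ha)
  have hB : ∀ a b, a ≤ K → b ≤ K →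
      nm (tf N (tr a U) - (e a * e b) • tf N (tr b U)) ^ 2 ≤ 8 * δ := by
    intro a b ha hb
    have e1 : tf N (tr a U) - (e a * e b) • tf N (tr b U) =
        (tf N (tr a U) - e a • v) + (-(e a * e b)) • (tf N (tr b U) - e b • v) := by
      have e2 : (-(e a * e b)) • (tf N (tr b U) - e b • v) =
          -((e a * e b) • tf N (tr b U)) + (e a * (e b * e b)) • v := by
        rw [neg_smul, smul_sub, smul_smul, neg_sub, mul_assoc]
        abel
      rw [e2, hee b, mul_one]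
      abel
    have h2 : nm (tf N (tr a U) - (e a * e b) • tf N (tr b U)) ≤
        nm (tf N (tr a U) - e a • v) + nm (tf N (tr b U) - e b • v) := by
      rw [e1]
      refine (nm_add_le _ _).trans (le_of_eq ?_)
      rw [nm_smul]
      have : |(-(e a * e b))| = 1 := by
        rw [abs_neg, abs_mul]
        rcases hec a with h | h <;> rcases hec b with h' | h' <;> rw [h, h'] <;> norm_num
      rw [this, one_mul]
    have h3 := hA a ha
    have h4 := hA b hb
    have h5 := nm_nonneg (tf N (tr a U) - e a • v)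
    have h6 := nm_nonneg (tf N (tr b U) - e b • v)
    have h7 := nm_nonneg (tf N (tr a U) - (e a * e b) • tf N (tr b U))
    nlinarith [sq_nonneg (nm (tf N (tr a U) - e a • v) - nm (tf N (tr b U) - e b • v))]
  have htr0 : tf N (tr 0 U) = tf N U := by
    unfold tf
    funext i
    exact tr_zero U i
  set s : ℝ := e 1 * e 0 with hs
  have hsc : s = 1 ∨ s = -1 := by
    rcases hec 1 with h | h <;> rcases hec 0 with h' | h' <;> rw [hs, h, h'] <;> norm_num
  have hstep : ∀ a, a + 1 ≤ K → e (a + 1) = s * e a := by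
    intro a ha
    have h2 := hB (a + 1) a ha (by omega)
    have h3 := hB 1 0 hK (by omega)
    have hc2 : e (a + 1) * e a = 1 ∨ e (a + 1) * e a = -1 := by
      rcases hec (a + 1) with h | h <;> rcases hec a with h' | h' <;> rw [h, h'] <;> norm_num
    rw [dot_sub_sq _ _ _ hc2 (hn1 _ ha) (hn1 _ (by omega)), hcons a ha] at h2
    rw [dot_sub_sq _ _ _ hsc (hn1 _ hK) (hn1 _ (by omega)), hcons 0 hK] at h3
    have h4 : e (a + 1) * e a = s := by
      rcases hc2 with h5 | h5 <;> rcases hsc with h6 | h6 <;> rw [h5] at h2 ⊢ <;> rw [h6] at h3 ⊢ <;>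
        first
        | rfl
        | (exfalso; linarith)
    calc e (a + 1) = e (a + 1) * e a * e a := by rw [mul_assoc, hee, mul_one]
      _ = s * e a := by rw [h4]
  have hpow : ∀ a, a ≤ K → e a = s ^ a * e 0 := by
    intro a
    induction a with
    | zero => intro _; rw [pow_zero, one_mul]
    | succ a ih =>
      intro ha
      rw [hstep a ha, ih (by omega), pow_succ]
      ring
  refine ⟨s, e 0, hsc, hec 0, ?_, ?_⟩
  · have := hA 0 (Nat.zero_le _)
    rwa [htr0] at this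
  · intro a ha
    have h2 := hB a 0 ha (Nat.zero_le _)
    rw [htr0, hpow a ha, mul_assoc, hee 0, mul_one] at h2
    exact h2

/-- distance to the block averages -/
lemma block_dist {K M : ℕ} (hK : 0 < K) {U : ℕ → ℝ}
    {s : ℝ} (hs : s = 1 ∨ s = -1) {δ : ℝ}
    (h : ∀ a, a ≤ K → nm (tf (K * M) (tr a U) - s ^ a • tf (K * M) U) ^ 2 ≤ 8 * δ) :
    nm (tf (K * M) (fun k => s ^ k * U k) - tf (K * M) (avg K fun k => s ^ k * U k)) ^ 2 ≤
      16 * δ := by
  have hK' : (0 : ℝ) < K := by exact_mod_cast hK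
  set w : ℕ → ℝ := fun k => s ^ k * U k with hw
  set D : ℕ → ℕ → ℝ := fun a k => if k + a < K * M then (w (k + a) - w k) ^ 2 else 0 with hD
  have hD0 : ∀ a k, 0 ≤ D a k := by
    intro a k
    simp only [hD]
    split_ifs
    · positivity
    · exact le_rfl
  have h1 := pairs_le (K := K) (M := M) D hD0 w (fun a k _ hk => by
    simp only [hD]; rw [if_pos hk])
  have h2 := avg_sub_sq_le hK w M
  have h3 : ∀ a ∈ Finset.range K, ∑ k ∈ Finset.range (K * M), D a k ≤ 8 * δ := by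
    intro a ha
    have ha' := Finset.mem_range.1 ha
    refine le_trans ?_ (h a ha'.le)
    rcases Nat.lt_or_ge (K * M) a with hlt | hge
    · have : M = 0 := by
        by_contra hM
        have : K * 1 ≤ K * M := Nat.mul_le_mul_left K (Nat.one_le_iff_ne_zero.2 hM)
        omega
      subst this
      simp only [Nat.mul_zero, Finset.range_zero, Finset.sum_empty]
      positivity
    · have e1 : nm (tf (K * M) (tr a U) - s ^ a • tf (K * M) U) ^ 2 =
          ∑ k ∈ Finset.range (K * M), (tr a U k - s ^ a * U k) ^ 2 := by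
        have e2 : tf (K * M) (tr a U) - s ^ a • tf (K * M) U =
            tf (K * M) (fun k => tr a U k - s ^ a * U k) := by
          funext i
          simp [tf]
        rw [nm_sq, e2, dot_tf]
        refine Finset.sum_congr rfl fun k _ => ?_
        ring
      rw [e1]
      obtain ⟨b, hb⟩ := Nat.exists_eq_add_of_le hge
      have e3 : ∑ k ∈ Finset.range (K * M), (tr a U k - s ^ a * U k) ^ 2 =
          ∑ k ∈ Finset.range a, (tr a U k - s ^ a * U k) ^ 2 +
          ∑ k ∈ Finset.range b, (tr a U (a + k) - s ^ a * U (a + k)) ^ 2 := by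
        rw [hb, Finset.sum_range_add]
      have e4 : ∑ k ∈ Finset.range (K * M), D a k =
          ∑ k ∈ Finset.range b, D a k := by
        rw [hb, Nat.add_comm a b, Finset.sum_range_add]
        rw [Finset.sum_eq_zero (s := Finset.range a), add_zero]
        intro k _
        simp only [hD]
        rw [if_neg (by omega)]
      rw [e3, e4]
      refine le_add_of_nonneg_of_le (Finset.sum_nonneg fun k _ => sq_nonneg _) ?_
      refine Finset.sum_le_sum fun k hk => ?_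
      have hk' := Finset.mem_range.1 hk
      simp only [hD]
      rw [if_pos (by omega), tr_add]
      simp only [hw]
      apply le_of_eq
      have e5 : s ^ (k + a) * U (k + a) - s ^ k * U k = -(s ^ k * (U k - s ^ a * U (a + k))) := by
        rw [pow_add, Nat.add_comm k a]
        ring
      rw [e5, neg_sq, mul_pow, sq (s ^ k), sgn_pow hs, one_mul]
  have h4 : ∑ a ∈ Finset.range K, ∑ k ∈ Finset.range (K * M), D a k ≤ K * (8 * δ) := by
    refine (Finset.sum_le_sum h3).trans (le_of_eq ?_)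
    rw [Finset.sum_const, Finset.card_range, nsmul_eq_mul]
  have e6 : nm (tf (K * M) w - tf (K * M) (avg K w)) ^ 2 =
      ∑ k ∈ Finset.range (K * M), (w k - avg K w k) ^ 2 := by
    have e7 : tf (K * M) w - tf (K * M) (avg K w) = tf (K * M) (fun k => w k - avg K w k) := by
      funext i
      simp [tf]
    rw [nm_sq, e7, dot_tf]
    refine Finset.sum_congr rfl fun k _ => ?_
    ring
  rw [e6]
  have h5 : (K : ℝ) * ∑ k ∈ Finset.range (K * M), (w k - avg K w k) ^ 2 ≤ K * (16 * δ) := by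
    linarith
  exact le_of_mul_le_mul_left h5 hK'

end

end Pool.Agent.K7.H89.TP
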