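import Pool.Agent.K7.H95.TP.Defs

/-!
MP_0d5435_pr, piece EIG: elementary facts on the largest eigenvalue of a symmetric matrix.
-/

set_option autoImplicit false

open MeasureTheory ProbabilityTheory Filter Topology Matrix
open scoped ENNReal NNReal

namespace Pool.Agent.K7.H89.TP

open Pool.Agent.K7.H95.TP

noncomputable section

variable {n : ℕ}

/-- the eigenvectors as plain vectors -/
def bv {T : Matrix (Fin n) (Fin n) ℝ} (hT : T.IsHermitian) (i : Fin n) : Fin n → ℝ :=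
  (hT.eigenvectorBasis i).ofLp

lemma inner_eq (x y : EuclideanSpace ℝ (Fin n)) : inner ℝ x y = x.ofLp ⬝ᵥ y.ofLp := by
  rw [EuclideanSpace.inner_eq_star_dotProduct]
  simp [dotProduct_comm]

lemma bv_orth {T : Matrix (Fin n) (Fin n) ℝ} (hT : T.IsHermitian) (i j : Fin n) :
    bv hT i ⬝ᵥ bv hT j = if i = j then 1 else 0 := by
  have h := (orthonormal_iff_ite.1 hT.eigenvectorBasis.orthonormal) i j
  rw [inner_eq] at h
  exact h

lemma bv_expand {T : Matrix (Fin n) (Fin n) ℝ} (hT : T.IsHermitian) (u : Fin n → ℝ) :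
    ∑ i, (bv hT i ⬝ᵥ u) • bv hT i = u := by
  have h := hT.eigenvectorBasis.sum_repr' (WithLp.toLp 2 u)
  have h2 := congrArg WithLp.ofLp h
  rw [WithLp.ofLp_sum] at h2
  simp only [WithLp.ofLp_smul, inner_eq] at h2
  exact h2

lemma bv_T {T : Matrix (Fin n) (Fin n) ℝ} (hT : T.IsHermitian) (i : Fin n) :
    T.mulVec (bv hT i) = hT.eigenvalues i • bv hT i :=
  hT.mulVec_eigenvectorBasis i

lemma dot_expand {T : Matrix (Fin n) (Fin n) ℝ} (hT : T.IsHermitian) (u w : Fin n → ℝ) :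
    u ⬝ᵥ w = ∑ i, (bv hT i ⬝ᵥ u) * (bv hT i ⬝ᵥ w) := by
  conv_lhs => rw [← bv_expand hT w]
  rw [dotProduct_sum]
  refine Finset.sum_congr rfl fun i _ => ?_
  rw [dotProduct_smul, smul_eq_mul, dotProduct_comm u, mul_comm]

lemma form_expand {T : Matrix (Fin n) (Fin n) ℝ} (hT : T.IsHermitian) (u w : Fin n → ℝ) :
    u ⬝ᵥ T.mulVec w = ∑ i, hT.eigenvalues i * ((bv hT i ⬝ᵥ u) * (bv hT i ⬝ᵥ w)) := by
  conv_lhs => rw [← bv_expand hT w]
  rw [Matrix.mulVec_sum, dotProduct_sum]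
  refine Finset.sum_congr rfl fun i _ => ?_
  rw [Matrix.mulVec_smul, bv_T, dotProduct_smul, dotProduct_smul, smul_eq_mul, smul_eq_mul,
    dotProduct_comm u]
  ring

lemma qf_expand {T : Matrix (Fin n) (Fin n) ℝ} (hT : T.IsHermitian) (u : Fin n → ℝ) :
    qf T u = ∑ i, hT.eigenvalues i * (bv hT i ⬝ᵥ u) ^ 2 := by
  unfold qf
  rw [form_expand hT]
  refine Finset.sum_congr rfl fun i _ => ?_
  ring

lemma sq_expand {T : Matrix (Fin n) (Fin n) ℝ} (hT : T.IsHermitian) (u : Fin n → ℝ) :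
    u ⬝ᵥ u = ∑ i, (bv hT i ⬝ᵥ u) ^ 2 := by
  rw [dot_expand hT]
  refine Finset.sum_congr rfl fun i _ => ?_
  ring

lemma abs_le_one {u : Fin n → ℝ} (hu : u ⬝ᵥ u = 1) (i : Fin n) : |u i| ≤ 1 := by
  have h : u i * u i ≤ u ⬝ᵥ u :=
    Finset.single_le_sum (f := fun j => u j * u j) (fun j _ => mul_self_nonneg _)
      (Finset.mem_univ i)
  rw [hu] at h
  rw [abs_le]
  constructor <;> nlinarith

lemma qf_sub_le (T T' : Matrix (Fin n) (Fin n) ℝ) {u : Fin n → ℝ} (hu : u ⬝ᵥ u = 1) :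
    qf T u ≤ qf T' u + ∑ i, ∑ j, |T i j - T' i j| := by
  have h : qf T u - qf T' u ≤ ∑ i, ∑ j, |T i j - T' i j| := by
    unfold qf
    simp only [dotProduct, Matrix.mulVec, Finset.mul_sum]
    rw [← Finset.sum_sub_distrib]
    refine Finset.sum_le_sum fun i _ => ?_
    rw [← Finset.sum_sub_distrib]
    refine Finset.sum_le_sum fun j _ => ?_
    have e : u i * (T i j * u j) - u i * (T' i j * u j) = (T i j - T' i j) * (u i * u j) := by ring
    rw [e]
    refine (le_abs_self _).trans ?_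
    rw [abs_mul, abs_mul]
    have h1 := abs_le_one hu i
    have h2 := abs_le_one hu j
    have h3 : |u i| * |u j| ≤ 1 := mul_le_one₀ h1 (abs_nonneg _) h2
    exact mul_le_of_le_one_right (abs_nonneg _) h3
  linarith

lemma bdd (T : Matrix (Fin n) (Fin n) ℝ) : BddAbove (qf T '' {u | u ⬝ᵥ u = 1}) := by
  refine ⟨∑ i, ∑ j, |T i j|, ?_⟩
  rintro _ ⟨u, hu, rfl⟩
  have h := qf_sub_le T 0 hu
  simp only [Matrix.zero_apply, sub_zero] at h
  have h0 : qf (0 : Matrix (Fin n) (Fin n) ℝ) u = 0 := by simp [qf]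
  rw [h0, zero_add] at h
  exact h

lemma ne (hn : 0 < n) (T : Matrix (Fin n) (Fin n) ℝ) : (qf T '' {u | u ⬝ᵥ u = 1}).Nonempty := by
  refine ⟨_, ⟨Pi.single ⟨0, hn⟩ 1, ?_, rfl⟩⟩
  simp

lemma qf_le_mx (T : Matrix (Fin n) (Fin n) ℝ) {u : Fin n → ℝ} (hu : u ⬝ᵥ u = 1) :
    qf T u ≤ mx T := le_csSup (bdd T) ⟨u, hu, rfl⟩

lemma mx_le_add (hn : 0 < n) (T T' : Matrix (Fin n) (Fin n) ℝ) :
    mx T ≤ mx T' + ∑ i, ∑ j, |T i j - T' i j| := by
  refine csSup_le (ne hn T) ?_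
  rintro _ ⟨u, hu, rfl⟩
  have h1 := qf_sub_le T T' hu
  have h2 := qf_le_mx T' hu
  linarith

lemma ev_eq {T : Matrix (Fin n) (Fin n) ℝ} (hT : T.IsHermitian) (i : Fin n) :
    qf T (bv hT i) = hT.eigenvalues i := by
  unfold qf
  rw [bv_T, dotProduct_smul, bv_orth, if_pos rfl, smul_eq_mul, mul_one]

lemma ev_le {T : Matrix (Fin n) (Fin n) ℝ} (hT : T.IsHermitian) (i : Fin n) :
    hT.eigenvalues i ≤ mx T := by
  rw [← ev_eq hT i]
  exact qf_le_mx T (by rw [bv_orth, if_pos rfl])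

lemma ev_neg_le {T : Matrix (Fin n) (Fin n) ℝ} (hT : T.IsHermitian) (i : Fin n) :
    -hT.eigenvalues i ≤ mx (-T) := by
  have h : qf (-T) (bv hT i) = -hT.eigenvalues i := by
    rw [← ev_eq hT i]
    unfold qf
    rw [Matrix.neg_mulVec, dotProduct_neg]
  rw [← h]
  exact qf_le_mx (-T) (by rw [bv_orth, if_pos rfl])

theorem s_EIG : S_EIG := by
  intro n T hT hn
  haveI : Nonempty (Fin n) := ⟨⟨0, hn⟩⟩
  obtain ⟨im, him⟩ := Finite.exists_max hT.eigenvalues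
  have hmx : mx T = hT.eigenvalues im := by
    apply le_antisymm _ (ev_le hT im)
    refine csSup_le (ne hn T) ?_
    rintro _ ⟨u, hu, rfl⟩
    rw [qf_expand hT]
    calc ∑ i, hT.eigenvalues i * (bv hT i ⬝ᵥ u) ^ 2
        ≤ ∑ i, hT.eigenvalues im * (bv hT i ⬝ᵥ u) ^ 2 :=
          Finset.sum_le_sum fun i _ => mul_le_mul_of_nonneg_right (him i) (sq_nonneg _)
      _ = hT.eigenvalues im * (u ⬝ᵥ u) := by rw [← Finset.mul_sum, ← sq_expand hT]
      _ = hT.eigenvalues im := by rw [show u ⬝ᵥ u = 1 from hu, mul_one]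
  refine ⟨?_, ev_le hT, ⟨im, hmx.symm⟩, ?_, ?_, ?_⟩
  · intro u
    rw [qf_expand hT, sq_expand hT, Finset.mul_sum]
    exact Finset.sum_le_sum fun i _ => mul_le_mul_of_nonneg_right (ev_le hT i) (sq_nonneg _)
  · intro T'
    have h1 := mx_le_add hn T T'
    have h2 := mx_le_add hn T' T
    have h3 : ∑ i, ∑ j, |T' i j - T i j| = ∑ i, ∑ j, |T i j - T' i j| :=
      Finset.sum_congr rfl fun i _ => Finset.sum_congr rfl fun j _ => abs_sub_comm _ _
    rw [h3] at h2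
    rw [abs_le]
    constructor <;> linarith
  · intro u w
    set Λ := mx T ⊔ mx (-T) with hΛ
    have hL : ∀ i, |hT.eigenvalues i| ≤ Λ := by
      intro i
      rw [abs_le]
      have h1 := (ev_le hT i).trans (le_sup_left (b := mx (-T)))
      have h2 := (ev_neg_le hT i).trans (le_sup_right (a := mx T))
      constructor <;> linarith
    have hΛ0 : 0 ≤ Λ := (abs_nonneg _).trans (hL im)
    rw [form_expand hT, sq_expand hT u, sq_expand hT w]
    calc |∑ i, hT.eigenvalues i * ((bv hT i ⬝ᵥ u) * (bv hT i ⬝ᵥ w))|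
        ≤ ∑ i, |hT.eigenvalues i * ((bv hT i ⬝ᵥ u) * (bv hT i ⬝ᵥ w))| :=
          Finset.abs_sum_le_sum_abs _ _
      _ ≤ ∑ i, Λ * (|bv hT i ⬝ᵥ u| * |bv hT i ⬝ᵥ w|) := by
          refine Finset.sum_le_sum fun i _ => ?_
          rw [abs_mul, abs_mul]
          exact mul_le_mul_of_nonneg_right (hL i) (by positivity)
      _ = Λ * ∑ i, |bv hT i ⬝ᵥ u| * |bv hT i ⬝ᵥ w| := by rw [Finset.mul_sum]
      _ ≤ Λ * (√(∑ i, (bv hT i ⬝ᵥ u) ^ 2) * √(∑ i, (bv hT i ⬝ᵥ w) ^ 2)) := by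
          refine mul_le_mul_of_nonneg_left ?_ hΛ0
          have h := Real.sum_mul_le_sqrt_mul_sqrt Finset.univ (fun i => |bv hT i ⬝ᵥ u|)
            (fun i => |bv hT i ⬝ᵥ w|)
          simpa only [sq_abs] using h
  · intro g i₀ hg hgap
    refine ⟨bv hT i₀, by rw [bv_orth, if_pos rfl], ?_⟩
    intro u hu
    have h1 : qf T u ≤ ∑ i, (hT.eigenvalues i₀ - if i = i₀ then 0 else g) *
        (bv hT i ⬝ᵥ u) ^ 2 := by
      rw [qf_expand hT]
      refine Finset.sum_le_sum fun i _ => mul_le_mul_of_nonneg_right ?_ (sq_nonneg _)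
      split_ifs with h
      · subst h; simp
      · exact hgap i h
    have h2 : ∑ i, (hT.eigenvalues i₀ - if i = i₀ then 0 else g) * (bv hT i ⬝ᵥ u) ^ 2 =
        hT.eigenvalues i₀ * (∑ i, (bv hT i ⬝ᵥ u) ^ 2) -
          g * ((∑ i, (bv hT i ⬝ᵥ u) ^ 2) - (bv hT i₀ ⬝ᵥ u) ^ 2) := by
      have h3 : (bv hT i₀ ⬝ᵥ u) ^ 2 = ∑ i, if i = i₀ then (bv hT i ⬝ᵥ u) ^ 2 else 0 := by
        rw [Finset.sum_ite_eq' Finset.univ i₀]
        simp
      rw [h3, ← Finset.sum_sub_distrib, Finset.mul_sum, Finset.mul_sum, ← Finset.sum_sub_distrib]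
      refine Finset.sum_congr rfl fun i _ => ?_
      split_ifs <;> ring
    rw [h2, ← sq_expand hT, hu] at h1
    have h4 := ev_le hT i₀
    rw [dotProduct_comm] at h1
    linarith

end

end Pool.Agent.K7.H89.TP
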